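import Mathlib
import Pool.Agent.Hhelper25.MobDil.Main

/-!
A Bessel inequality for the Möbius function against shifted primes, along the orthogonal system
`G d n = ∑_{e ∣ d} μ(d/e) φ(e) [e ∣ n]` of the shifted primes.
-/

set_option autoImplicit false

namespace Pool.Agent.Results.MP_0bfb7f_nt.Bessel

open Finset ArithmeticFunction Filter

/-- `h(d) = ∑_{xy = d} μ(x) φ(y)`. -/
noncomputable def h (d : ℕ) : ℝ :=
  ∑ x ∈ d.divisorsAntidiagonal, ((moebius x.1 : ℤ) : ℝ) * (x.2.totient : ℝ)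

/-- `G_d(n) = ∑_{xy = d, y ∣ n} μ(x) φ(y)`. -/
noncomputable def G (d n : ℕ) : ℝ :=
  ∑ x ∈ d.divisorsAntidiagonal,
    ((moebius x.1 : ℤ) : ℝ) * ((x.2.totient : ℝ) * if x.2 ∣ n then 1 else 0)

theorem result : ∀ D : Finset ℕ, (∀ d ∈ D, 0 < d ∧ 0 < h d) → ∀ y : ℕ, ∀ ε : ℝ, 0 < ε →
    ∃ X₀ : ℕ, ∀ X : ℕ, X₀ ≤ X →
      ∑ d ∈ D, (∑ n ∈ Icc 1 X, ((moebius n : ℤ) : ℝ) * vonMangoldt (n - 1) * G d n) ^ 2 / h d
        ≤ ((∏ p ∈ (range (y + 1)).filter Nat.Prime, (1 - 1 / ((p : ℝ) * (p - 1)))) + ε)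
            * (X : ℝ) ^ 2 := by
  intro D hD y ε hε
  have := eventually_atTop.mp (Pool.Agent.Hhelper25.MobDil.bessel y D hD ε hε)
  obtain ⟨X₀, hX⟩ := this
  refine ⟨X₀, fun X hX' => ?_⟩
  have h1 := hX X hX'
  simp only [Pool.Agent.Hhelper25.MobDil.Dd_eq] at h1
  exact h1

end Pool.Agent.Results.MP_0bfb7f_nt.Bessel
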