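import Mathlib
import Pool.Agent.Hhelper25.MobDil.Main

/-!
A criterion for `∑_{n ≤ X} μ(n) Λ(n-1) = o(X)`: the sum is `o(X)` if and only if for each
`ε ∈ (0,1]` there is a fixed finite set of primes in which, for each large `X`, the primes `p` with
`|p · ∑_{m ≤ X/p} μ(m) Λ(pm-1)| ≤ ε X` have logarithmic mass at least `K/ε²`.
-/

set_option autoImplicit false

namespace Pool.Agent.Results.MP_0bfb7f_nt.Criterion

open Finset ArithmeticFunction Filter Topology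

/-- `T_p(X) = ∑_{1 ≤ m ≤ X/p} μ(m) Λ(pm-1)`. -/
noncomputable def T (p X : ℕ) : ℝ :=
  ∑ m ∈ Icc 1 (X / p), ((moebius m : ℤ) : ℝ) * vonMangoldt (p * m - 1)

theorem result : ∀ K : ℝ, 6 ≤ K →
    (Tendsto (fun X : ℕ => (∑ n ∈ Icc 1 X, ((moebius n : ℤ) : ℝ) * vonMangoldt (n - 1)) / (X : ℝ))
        atTop (𝓝 0) ↔
      ∀ ε : ℝ, 0 < ε → ε ≤ 1 → ∃ P : Finset ℕ, (∀ p ∈ P, p.Prime) ∧ ∃ X₀ : ℕ, ∀ X : ℕ, X₀ ≤ X →
        K / ε ^ 2 ≤ ∑ p ∈ P.filter (fun p => |p * T p X| ≤ ε * X), (1 : ℝ) / p) := by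
  intro K hK
  constructor
  · intro h ε hε hε1
    obtain ⟨P, hP, h2⟩ := Pool.Agent.Hhelper25.MobDil.criterion_fwd h ε hε hε1 (K / ε ^ 2)
    exact ⟨P, hP, eventually_atTop.mp h2⟩
  · intro h
    refine Pool.Agent.Hhelper25.MobDil.criterion_bwd fun ε hε hε1 => ?_
    obtain ⟨P, hP, h2⟩ := h ε hε hε1
    refine ⟨P, hP, (eventually_atTop.mpr h2).mono fun X hX => le_trans ?_ hX⟩
    exact div_le_div_of_nonneg_right hK (by positivity)

end Pool.Agent.Results.MP_0bfb7f_nt.Criterion
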