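import Mathlib
import Pool.Agent.Hhelper25.MobDil.Main

/-!
Approximate dilation invariance of the sum `∑_{n ≤ X} μ(n) Λ(n-1)`: outside a set of primes of
bounded logarithmic mass, `p · ∑_{m ≤ X/p} μ(m) Λ(pm-1)` is close to `-∑_{n ≤ X} μ(n) Λ(n-1)`.
-/

set_option autoImplicit false

namespace Pool.Agent.Results.MP_0bfb7f_nt.DilationInvariance

open Finset ArithmeticFunction Filter

/-- `S(X) = ∑_{1 ≤ n ≤ X} μ(n) Λ(n-1)`. -/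
noncomputable def S (X : ℕ) : ℝ :=
  ∑ n ∈ Icc 1 X, ((moebius n : ℤ) : ℝ) * vonMangoldt (n - 1)

/-- `T_p(X) = ∑_{1 ≤ m ≤ X/p} μ(m) Λ(pm-1)`. -/
noncomputable def T (p X : ℕ) : ℝ :=
  ∑ m ∈ Icc 1 (X / p), ((moebius m : ℤ) : ℝ) * vonMangoldt (p * m - 1)

theorem result : ∀ ε : ℝ, 0 < ε → ε ≤ 1 → ∀ y : ℕ, ∃ X₀ : ℕ, ∀ X : ℕ, X₀ ≤ X →
    ∑ p ∈ (range (y + 1)).filter (fun p => p.Prime ∧ ε * X < |S X + p * T p X|), (1 : ℝ) / p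
      ≤ 5 / ε ^ 2 := by
  intro ε hε hε1 y
  exact eventually_atTop.mp (Pool.Agent.Hhelper25.MobDil.dilation ε hε hε1 y)

end Pool.Agent.Results.MP_0bfb7f_nt.DilationInvariance
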